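import Pool.Agent.R184UP.Main

/-! MP_1001d8_an, Q1: a complex Banach space with the primary factorisation property but without
the uniform primary factorisation property. -/

namespace Pool.Agent.Results.MP_1001d8_an.PfpNotUpfp

/-- The primary factorisation property of the complex normed space `E`: for each bounded operator
`T` on `E` the identity factors through `T` or through `1 - T`. -/
def HasPFP (E : Type) [NormedAddCommGroup E] [NormedSpace ℂ E] : Prop :=
  ∀ T : E →L[ℂ] E, (∃ U V : E →L[ℂ] E, U * T * V = 1) ∨ (∃ U V : E →L[ℂ] E, U * (1 - T) * V = 1)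

/-- The `C`-primary factorisation property. -/
def HasCPFP (E : Type) [NormedAddCommGroup E] [NormedSpace ℂ E] (C : ℝ) : Prop :=
  ∀ T : E →L[ℂ] E, ∃ U V : E →L[ℂ] E, ‖U‖ * ‖V‖ ≤ C ∧ (U * T * V = 1 ∨ U * (1 - T) * V = 1)

/-- The uniform primary factorisation property. -/
def HasUPFP (E : Type) [NormedAddCommGroup E] [NormedSpace ℂ E] : Prop :=
  ∃ C : ℝ, 1 ≤ C ∧ HasCPFP E C

/-- There is a complex Banach space which has the primary factorisation property but does not
have the uniform primary factorisation property. -/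
theorem result : ∃ (E : Type) (_ : NormedAddCommGroup E) (_ : NormedSpace ℂ E),
    CompleteSpace E ∧ HasPFP E ∧ ¬ HasUPFP E := by
  obtain ⟨E, i1, i2, i3, h1, h2⟩ := Pool.Agent.R184UP.exists_space
  refine ⟨E, i1, i2, i3, fun T => ?_, ?_⟩
  · obtain ⟨U, V, h | h⟩ := h1 T
    · exact Or.inl ⟨U, V, h⟩
    · exact Or.inr ⟨U, V, h⟩
  · rintro ⟨C, -, hC⟩
    obtain ⟨T, hT⟩ := h2 C
    obtain ⟨U, V, hUV, h⟩ := hC T
    exact absurd hUV (not_le.2 (hT U V h))

end Pool.Agent.Results.MP_1001d8_an.PfpNotUpfp
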